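import Mathlib

/-!
# Rainbow cycles of length `n - 2` in optimal edge-colourings of `K_n`

An edge-colouring of the complete graph on `Fin n` with colours in `Fin m` is a function
`c : Sym2 (Fin n) → Fin m` (its values on the diagonal are irrelevant).

We show that for every `k ≥ 3` the complete graphs on `2^k` and on `2^k - 1` vertices have an
optimal edge-colouring in which no cycle of length `n - 2` is rainbow.
-/

namespace Pool.Agent.Results.MP_4bc86c_co.NoRainbowNSubTwo

open SimpleGraph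

/-- `c` is a proper edge-colouring of `K_n`: edges sharing exactly one vertex get different
colours. -/
def IsProper {n m : ℕ} (c : Sym2 (Fin n) → Fin m) : Prop :=
  ∀ u v w : Fin n, u ≠ v → u ≠ w → v ≠ w → c s(u, v) ≠ c s(u, w)

/-- `c` is an optimal edge-colouring of `K_n`: it is proper, and no proper edge-colouring of `K_n`
uses a palette with fewer than `m` colours. -/
def IsOptimal {n m : ℕ} (c : Sym2 (Fin n) → Fin m) : Prop :=
  IsProper c ∧ ∀ (m' : ℕ) (c' : Sym2 (Fin n) → Fin m'), IsProper c' → m ≤ m'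

/-- The colouring `c` of `K_n` has a rainbow cycle of length `l`. -/
def HasRainbowCycle {n m : ℕ} (c : Sym2 (Fin n) → Fin m) (l : ℕ) : Prop :=
  ∃ (v : Fin n) (w : (⊤ : SimpleGraph (Fin n)).Walk v v),
    w.IsCycle ∧ w.length = l ∧ (w.edges.map c).Nodup

/-- The question Q1 as posed. -/
def Question : Prop :=
  ∀ n : ℕ, 5 ≤ n → ∀ (m : ℕ) (c : Sym2 (Fin n) → Fin m), IsOptimal c → HasRainbowCycle c (n - 2)

/-! ### Lower bounds for the number of colours -/

lemma proper_inj {n m : ℕ} {c : Sym2 (Fin n) → Fin m} (hc : IsProper c) (u : Fin n) :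
    Set.InjOn (fun v => c s(u, v)) ((Finset.univ.erase u : Finset (Fin n)) : Set (Fin n)) := by
  intro v hv w hw h
  by_contra hvw
  have hv' : v ≠ u := (Finset.mem_erase.mp (Finset.mem_coe.mp hv)).1
  have hw' : w ≠ u := (Finset.mem_erase.mp (Finset.mem_coe.mp hw)).1
  exact hc u v w (Ne.symm hv') (Ne.symm hw') hvw h

lemma lower_pred {n m : ℕ} {c : Sym2 (Fin n) → Fin m} (hc : IsProper c) : n - 1 ≤ m := by
  rcases Nat.eq_zero_or_pos n with h0 | hpos
  · omega
  · let u : Fin n := ⟨0, hpos⟩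
    have h := Finset.card_le_card_of_injOn (s := Finset.univ.erase u) (t := Finset.univ)
      (fun v => c s(u, v)) (fun _ _ => Finset.mem_coe.mpr (Finset.mem_univ _)) (proper_inj hc u)
    simpa [Finset.card_erase_of_mem] using h

lemma lower_odd {n m : ℕ} (hn : Odd n) {c : Sym2 (Fin n) → Fin m} (hc : IsProper c)
    (h3 : 3 ≤ n) : n ≤ m := by
  by_contra hlt
  have h1 := lower_pred hc
  have hm : m = n - 1 := by omega
  subst hm
  have hpos : 0 < n - 1 := by omega
  let z : Fin (n - 1) := ⟨0, hpos⟩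
  have hex : ∀ u : Fin n, ∃ v, v ≠ u ∧ c s(u, v) = z := by
    intro u
    have himg : (Finset.univ.erase u).image (fun v => c s(u, v)) = Finset.univ := by
      apply Finset.eq_univ_of_card
      rw [Finset.card_image_of_injOn (proper_inj hc u)]
      simp
    have hz : z ∈ (Finset.univ.erase u).image (fun v => c s(u, v)) := by
      rw [himg]; exact Finset.mem_univ _
    rw [Finset.mem_image] at hz
    obtain ⟨v, hv, hvz⟩ := hz
    exact ⟨v, (Finset.mem_erase.mp hv).1, hvz⟩
  choose f hf hfz using hex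
  have hinv : Function.Involutive f := by
    intro u
    by_contra hne
    have h2 : c s(f u, u) = z := by rw [Sym2.eq_swap]; exact hfz u
    have h3 := hfz (f u)
    exact hc (f u) (f (f u)) u (Ne.symm (hf (f u))) (hf u) hne (h3.trans h2.symm)
  have hnd : ¬ 2 ∣ Fintype.card (Fin n) := by
    rw [Fintype.card_fin]
    intro h
    exact (Nat.not_even_iff_odd.mpr hn) (even_iff_two_dvd.mpr h)
  obtain ⟨a, ha⟩ := Equiv.Perm.exists_fixed_point_of_prime (p := 2) (n := 1) hnd
    (σ := hinv.toPerm f) (by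
      ext u
      simp [pow_succ, hinv u])
  exact hf a ha

/-! ### The sum colouring -/

variable {k : ℕ}

/-- The edge colouring by the sum of the labels of the end points. -/
def sumCol {n : ℕ} (φ : Fin n → (Fin k → ZMod 2)) : Sym2 (Fin n) → (Fin k → ZMod 2) :=
  Sym2.lift ⟨fun u v => φ u + φ v, fun _ _ => add_comm _ _⟩

@[simp] lemma sumCol_mk {n : ℕ} (φ : Fin n → (Fin k → ZMod 2)) (u v : Fin n) :
    sumCol φ s(u, v) = φ u + φ v := rfl

lemma add_self_zero (x : Fin k → ZMod 2) : x + x = 0 := by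
  ext i
  exact CharTwo.add_self_eq_zero _

lemma add_eq_zero_imp {x y : Fin k → ZMod 2} (h : x + y = 0) : x = y := by
  have h2 := congrArg (· + y) h
  simpa [add_assoc, add_self_zero] using h2

lemma walk_sum {n : ℕ} (φ : Fin n → (Fin k → ZMod 2)) {u v : Fin n}
    (w : (⊤ : SimpleGraph (Fin n)).Walk u v) :
    ((w.edges.map (sumCol φ)).sum) = φ u + φ v := by
  induction w with
  | nil => simp [add_self_zero]
  | cons h p ih =>
    rename_i a b d
    rw [Walk.edges_cons, List.map_cons, List.sum_cons, ih, sumCol_mk]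
    have := add_self_zero (φ b)
    calc φ a + φ b + (φ b + φ d) = φ a + (φ b + φ b) + φ d := by abel
      _ = φ a + φ d := by rw [this, add_zero]

/-- The sum of all vectors of `F_2^k` is zero for `k ≥ 2`. -/
lemma sum_univ_zero (hk : 2 ≤ k) : ∑ x : Fin k → ZMod 2, x = 0 := by
  ext i
  rw [Finset.sum_apply]
  obtain ⟨j, hj⟩ : ∃ j : Fin k, j ≠ i := by
    have : Nontrivial (Fin k) := Fin.nontrivial_iff_two_le.mpr hk
    exact exists_ne i
  apply Finset.sum_involution (fun (x : Fin k → ZMod 2) _ => x + Pi.single j 1)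
  · intro x _
    simp [hj.symm, CharTwo.add_self_eq_zero]
  · intro x _ _ h
    have := congrFun h j
    simp at this
  · intro x _
    simp only [add_assoc, add_self_zero, add_zero]
  · intro x _; exact Finset.mem_univ _

/-- The palette of nonzero vectors. -/
lemma exists_code (hk : 1 ≤ k) : ∃ g : (Fin k → ZMod 2) → Fin (2 ^ k - 1),
    ∀ x y, x ≠ 0 → y ≠ 0 → g x = g y → x = y := by
  classical
  have hcard : Fintype.card {x : Fin k → ZMod 2 // x ≠ 0} = 2 ^ k - 1 := by
    rw [Fintype.card_subtype_compl]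
    simp [ZMod.card]
  have e : {x : Fin k → ZMod 2 // x ≠ 0} ≃ Fin (2 ^ k - 1) := Fintype.equivFinOfCardEq hcard
  have hpos : 0 < 2 ^ k - 1 := by
    have : 2 ^ 1 ≤ 2 ^ k := Nat.pow_le_pow_right (by norm_num) hk
    omega
  refine ⟨fun x => if h : x = 0 then ⟨0, hpos⟩ else e ⟨x, h⟩, ?_⟩
  intro x y hx hy h
  simp only [hx, hy, dif_neg, not_false_eq_true] at h
  have := e.injective h
  exact Subtype.mk.inj this

lemma proper_sum {n m : ℕ} (φ : Fin n → (Fin k → ZMod 2)) (hφ : Function.Injective φ)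
    (g : (Fin k → ZMod 2) → Fin m) (hg : ∀ x y, x ≠ 0 → y ≠ 0 → g x = g y → x = y) :
    IsProper (fun e => g (sumCol φ e)) := by
  intro u v w huv huw hvw h
  have h1 : φ u + φ v ≠ 0 := fun h => huv (hφ (add_eq_zero_imp h))
  have h2 : φ u + φ w ≠ 0 := fun h => huw (hφ (add_eq_zero_imp h))
  have h3 := hg _ _ h1 h2 h
  exact hvw (hφ (add_left_cancel h3))

/-- A rainbow cycle gives a set of nonzero vectors, of size the length, with sum zero. -/
lemma rainbow_set {n m : ℕ} (φ : Fin n → (Fin k → ZMod 2)) (hφ : Function.Injective φ)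
    (g : (Fin k → ZMod 2) → Fin m) {l : ℕ}
    (h : HasRainbowCycle (fun e => g (sumCol φ e)) l) :
    ∃ T : Finset (Fin k → ZMod 2), (0 : Fin k → ZMod 2) ∉ T ∧ T.card = l ∧ ∑ x ∈ T, x = 0 := by
  classical
  obtain ⟨v, w, -, hl, hnd⟩ := h
  have hnd' : (w.edges.map (sumCol φ)).Nodup := by
    have : w.edges.map (fun e => g (sumCol φ e)) = (w.edges.map (sumCol φ)).map g := by
      rw [List.map_map]; rfl
    rw [this] at hnd
    exact List.Nodup.of_map _ hnd
  refine ⟨(w.edges.map (sumCol φ)).toFinset, ?_, ?_, ?_⟩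
  · intro h0
    rw [List.mem_toFinset, List.mem_map] at h0
    obtain ⟨e, he, he0⟩ := h0
    have hadj := w.edges_subset_edgeSet he
    induction e using Sym2.ind with
    | _ a b =>
      rw [SimpleGraph.mem_edgeSet, SimpleGraph.top_adj] at hadj
      rw [sumCol_mk] at he0
      exact hadj (hφ (add_eq_zero_imp he0))
  · rw [List.toFinset_card_of_nodup hnd', List.length_map, Walk.length_edges, hl]
  · rw [List.sum_toFinset (fun x => x) hnd']
    simp only [List.map_id']
    rw [walk_sum, add_self_zero]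

lemma card_nonzero : ((Finset.univ : Finset (Fin k → ZMod 2)).erase 0).card = 2 ^ k - 1 := by
  rw [Finset.card_erase_of_mem (Finset.mem_univ _)]
  simp [ZMod.card]

/-- No set of `2^k - 2` nonzero vectors has sum zero (`k ≥ 2`). -/
lemma no_set_two (hk : 2 ≤ k) (T : Finset (Fin k → ZMod 2)) (h0 : (0 : Fin k → ZMod 2) ∉ T)
    (hc : T.card = 2 ^ k - 2) : ∑ x ∈ T, x ≠ 0 := by
  classical
  intro hs
  have hsub : T ⊆ (Finset.univ : Finset (Fin k → ZMod 2)).erase 0 := fun x hx =>
    Finset.mem_erase.mpr ⟨fun h => h0 (h ▸ hx), Finset.mem_univ _⟩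
  have h4 : 2 ^ 2 ≤ 2 ^ k := Nat.pow_le_pow_right (by norm_num) hk
  have hd : (((Finset.univ : Finset (Fin k → ZMod 2)).erase 0) \ T).card = 1 := by
    rw [Finset.card_sdiff_of_subset hsub, card_nonzero, hc]; omega
  obtain ⟨z, hz⟩ := Finset.card_eq_one.mp hd
  have hzmem : z ∈ ((Finset.univ : Finset (Fin k → ZMod 2)).erase 0) \ T := by
    rw [hz]; exact Finset.mem_singleton_self z
  have hz0 : z ≠ 0 := (Finset.mem_erase.mp (Finset.mem_sdiff.mp hzmem).1).1
  have h1 := Finset.sum_sdiff (f := fun x => x) hsub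
  rw [hz, Finset.sum_singleton, hs, add_zero] at h1
  have h2 := Finset.sum_erase (s := (Finset.univ : Finset (Fin k → ZMod 2))) (f := fun x => x)
    (a := 0) rfl
  rw [h2, sum_univ_zero hk] at h1
  exact hz0 h1

/-- No set of `2^k - 3` nonzero vectors has sum zero (`k ≥ 2`). -/
lemma no_set_three (hk : 2 ≤ k) (T : Finset (Fin k → ZMod 2)) (h0 : (0 : Fin k → ZMod 2) ∉ T)
    (hc : T.card = 2 ^ k - 3) : ∑ x ∈ T, x ≠ 0 := by
  classical
  intro hs
  have hsub : T ⊆ (Finset.univ : Finset (Fin k → ZMod 2)).erase 0 := fun x hx =>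
    Finset.mem_erase.mpr ⟨fun h => h0 (h ▸ hx), Finset.mem_univ _⟩
  have h4 : 2 ^ 2 ≤ 2 ^ k := Nat.pow_le_pow_right (by norm_num) hk
  have hd : (((Finset.univ : Finset (Fin k → ZMod 2)).erase 0) \ T).card = 2 := by
    rw [Finset.card_sdiff_of_subset hsub, card_nonzero, hc]; omega
  obtain ⟨y, z, hyz, hz⟩ := Finset.card_eq_two.mp hd
  have h1 := Finset.sum_sdiff (f := fun x => x) hsub
  rw [hz, Finset.sum_pair hyz, hs, add_zero] at h1
  have h2 := Finset.sum_erase (s := (Finset.univ : Finset (Fin k → ZMod 2))) (f := fun x => x)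
    (a := 0) rfl
  rw [h2, sum_univ_zero hk] at h1
  exact hyz (add_eq_zero_imp h1)

/-- On `2^k` vertices (`k ≥ 3`) there is an optimal colouring, with `2^k - 1` colours, without a
rainbow cycle of length `2^k - 2`. -/
lemma even_case (hk : 3 ≤ k) : ∃ c : Sym2 (Fin (2 ^ k)) → Fin (2 ^ k - 1),
    IsOptimal c ∧ ¬ HasRainbowCycle c (2 ^ k - 2) := by
  classical
  obtain ⟨g, hg⟩ := exists_code (k := k) (by omega)
  have hcard : Fintype.card (Fin k → ZMod 2) = 2 ^ k := by simp [ZMod.card]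
  have e : (Fin k → ZMod 2) ≃ Fin (2 ^ k) := Fintype.equivFinOfCardEq hcard
  refine ⟨fun s => g (sumCol e.symm s), ⟨proper_sum _ e.symm.injective g hg, ?_⟩, ?_⟩
  · intro m' c' hc'
    exact lower_pred hc'
  · intro h
    obtain ⟨T, h0, hc, hs⟩ := rainbow_set _ e.symm.injective g h
    exact no_set_two (by omega) T h0 hc hs

/-- On `2^k - 1` vertices (`k ≥ 3`) there is an optimal colouring, with `2^k - 1` colours, without
a rainbow cycle of length `2^k - 3`. -/
lemma odd_case (hk : 3 ≤ k) : ∃ c : Sym2 (Fin (2 ^ k - 1)) → Fin (2 ^ k - 1),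
    IsOptimal c ∧ ¬ HasRainbowCycle c (2 ^ k - 1 - 2) := by
  classical
  have h8 : 2 ^ 3 ≤ 2 ^ k := Nat.pow_le_pow_right (by norm_num) hk
  obtain ⟨g, hg⟩ := exists_code (k := k) (by omega)
  have hcard : Fintype.card (Fin k → ZMod 2) = 2 ^ k := by simp [ZMod.card]
  have e : (Fin k → ZMod 2) ≃ Fin (2 ^ k) := Fintype.equivFinOfCardEq hcard
  let φ : Fin (2 ^ k - 1) → (Fin k → ZMod 2) := fun i => e.symm (Fin.castLE (by omega) i)
  have hφ : Function.Injective φ := fun i j h =>
    Fin.castLE_injective _ (e.symm.injective h)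
  refine ⟨fun s => g (sumCol φ s), ⟨proper_sum _ hφ g hg, ?_⟩, ?_⟩
  · intro m' c' hc'
    refine lower_odd ?_ hc' (by omega)
    obtain ⟨j, rfl⟩ : ∃ j, k = j + 1 := ⟨k - 1, by omega⟩
    rw [pow_succ] at h8 ⊢
    exact ⟨2 ^ j - 1, by omega⟩
  · intro h
    obtain ⟨T, h0, hc, hs⟩ := rainbow_set _ hφ g h
    exact no_set_three (by omega) T h0 (by omega) hs

/-- **Main result.** For every `k ≥ 3`, both for `n = 2^k` and for `n = 2^k - 1` there is an optimal
edge-colouring of `K_n` with no rainbow cycle of length `n - 2`; in particular the answer to the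
question (already for `n = 7` and `n = 8`) is negative. -/
theorem result :
    ¬ Question ∧
    (∀ k : ℕ, 3 ≤ k → ∃ c : Sym2 (Fin (2 ^ k)) → Fin (2 ^ k - 1),
      IsOptimal c ∧ ¬ HasRainbowCycle c (2 ^ k - 2)) ∧
    (∀ k : ℕ, 3 ≤ k → ∃ c : Sym2 (Fin (2 ^ k - 1)) → Fin (2 ^ k - 1),
      IsOptimal c ∧ ¬ HasRainbowCycle c (2 ^ k - 1 - 2)) := by
  refine ⟨?_, fun k hk => even_case hk, fun k hk => odd_case hk⟩
  intro hQ
  obtain ⟨c, hc, hn⟩ := even_case (k := 3) le_rfl
  exact hn (hQ (2 ^ 3) (by norm_num) _ c hc)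

end Pool.Agent.Results.MP_4bc86c_co.NoRainbowNSubTwo
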